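import Pool.Agent.Lib_helper28.Chrom.Stmt

/-!
# Deleting an edge of the graph, and the members of the family `ext A u v` (2.3 of note 1214)
-/

open Finset

namespace Pool.Agent.Chrom

set_option linter.unusedSectionVars false

variable {V : Type*} [Fintype V] [DecidableEq V]

section graph

variable {G : SimpleGraph V} {S C : Finset V} {u v w x y : V}

lemma delE_adj : (delE G u v).Adj x y ↔ G.Adj x y ∧ ¬ ((x = u ∧ y = v) ∨ (x = v ∧ y = u)) :=
  Iff.rfl

lemma delE_le : delE G u v ≤ G := fun _ _ h => h.1

/-- if one of the two ends is deleted then the edge does not matter -/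
lemma del_delE (h : u ∈ S ∨ v ∈ S) : del (delE G u v) S = del G S := by
  ext x y
  rw [del_adj, del_adj, delE_adj]
  constructor
  · rintro ⟨⟨h1, -⟩, h2⟩
    exact ⟨h1, h2⟩
  · rintro ⟨h1, hx, hy⟩
    refine ⟨⟨h1, ?_⟩, hx, hy⟩
    rintro (⟨rfl, rfl⟩ | ⟨rfl, rfl⟩)
    · rcases h with h | h
      · exact hx h
      · exact hy h
    · rcases h with h | h
      · exact hy h
      · exact hx h

lemma comps_delE (h : u ∈ S ∨ v ∈ S) : comps (delE G u v) S = comps G S := by
  ext C
  rw [mem_comps, mem_comps]
  have : ∀ w, comp (delE G u v) S w = comp G S w := by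
    intro w
    ext z
    rw [mem_comp, mem_comp, del_delE h]
  simp only [this]

lemma kk_delE (h : u ∈ S ∨ v ∈ S) : kk (delE G u v) S = kk G S := by
  unfold kk
  rw [comps_delE h]

lemma cc_delE (h : u ∈ S ∨ v ∈ S) : cc (delE G u v) S = cc G S := by
  unfold cc
  rw [kk_delE h]

/-- if the two ends are still connected then nothing changes -/
lemma comps_delE_of_reachable (h : (del (delE G u v) S).Reachable u v) :
    comps (delE G u v) S = comps G S := by
  refine (comps_eq_of_reachable delE_le S ?_).symm
  rintro x y ⟨hxy, hx, hy⟩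
  by_cases h' : (x = u ∧ y = v) ∨ (x = v ∧ y = u)
  · rcases h' with ⟨rfl, rfl⟩ | ⟨rfl, rfl⟩
    · exact h
    · exact h.symm
  · exact SimpleGraph.Adj.reachable ⟨⟨hxy, h'⟩, hx, hy⟩

lemma kk_delE_of_reachable (h : (del (delE G u v) S).Reachable u v) :
    kk (delE G u v) S = kk G S := by
  unfold kk
  rw [comps_delE_of_reachable h]

lemma cc_delE_of_reachable (h : (del (delE G u v) S).Reachable u v) :
    cc (delE G u v) S = cc G S := by
  unfold cc
  rw [kk_delE_of_reachable h]

/-- if the two ends are separated then there is exactly one more component -/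
lemma kk_delE_of_not_reachable (huv : G.Adj u v) (hu : u ∉ S) (hv : v ∉ S)
    (h : ¬ (del (delE G u v) S).Reachable u v) : kk (delE G u v) S = kk G S + 1 := by
  set H := delE G u v with hH
  have hle : H ≤ G := delE_le
  -- the component of a point connected to `u` or `v`
  have hbig : ∀ w, w ∈ comp H S u ∪ comp H S v → comp G S w = comp H S u ∪ comp H S v := by
    have hadj : (del G S).Reachable u v := SimpleGraph.Adj.reachable ⟨huv, hu, hv⟩
    have hw : ∀ w, w ∈ comp H S u ∪ comp H S v → (del G S).Reachable u w := by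
      intro w hw
      rcases mem_union.1 hw with hw | hw
      · exact mem_comp.1 (comp_mono_graph hle S u hw)
      · exact hadj.trans (mem_comp.1 (comp_mono_graph hle S v hw))
    have hcl : Closed G S (comp H S u ∪ comp H S v) := by
      intro x hx y hxy hy
      by_cases h' : (x = u ∧ y = v) ∨ (x = v ∧ y = u)
      · rcases h' with ⟨rfl, rfl⟩ | ⟨rfl, rfl⟩
        · exact mem_union_right _ (self_mem_comp _)
        · exact mem_union_left _ (self_mem_comp _)
      · rcases mem_union.1 hx with hx | hx
        · exact mem_union_left _ (comps_closed (comp_mem_comps hu) hx ⟨hxy, h'⟩ hy)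
        · exact mem_union_right _ (comps_closed (comp_mem_comps hv) hx ⟨hxy, h'⟩ hy)
    intro w hw'
    ext z
    rw [mem_comp]
    constructor
    · intro hz
      exact (reachable_closed hcl hw' hz).1
    · intro hz
      exact (hw w hw').symm.trans (hw z hz)
  have hsmall : ∀ w, w ∉ comp H S u → w ∉ comp H S v → comp G S w = comp H S w := by
    intro w h1 h2
    refine Subset.antisymm ?_ (comp_mono_graph hle S w)
    intro z hz
    rw [mem_comp] at hz ⊢
    obtain ⟨p⟩ := hz
    induction p with
    | nil => exact SimpleGraph.Reachable.refl _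
    | @cons a b c hab p ih =>
      have hab' : (del H S).Adj a b := by
        refine ⟨⟨hab.1, ?_⟩, hab.2⟩
        rintro (⟨rfl, rfl⟩ | ⟨rfl, rfl⟩)
        · exact h1 (self_mem_comp _)
        · exact h2 (self_mem_comp _)
      have h3 : b ∈ comp H S a := mem_comp.2 hab'.reachable
      refine hab'.reachable.trans (ih ?_ ?_)
      · intro hb
        apply h1
        rw [mem_comp] at hb ⊢
        exact hb.trans hab'.reachable.symm
      · intro hb
        apply h2
        rw [mem_comp] at hb ⊢
        exact hb.trans hab'.reachable.symm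
  have hne : comp H S u ≠ comp H S v := by
    intro heq
    apply h
    rw [← mem_comp, heq]
    exact self_mem_comp v
  have hset : comps G S =
      insert (comp H S u ∪ comp H S v) (((comps H S).erase (comp H S u)).erase (comp H S v)) := by
    ext C
    rw [mem_insert, mem_erase, mem_erase]
    constructor
    · intro hC
      obtain ⟨w, hw, rfl⟩ := mem_comps.1 hC
      by_cases h1 : w ∈ comp H S u ∪ comp H S v
      · left
        exact hbig w h1
      · right
        rw [mem_union, not_or] at h1
        rw [hsmall w h1.1 h1.2]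
        refine ⟨?_, ?_, comp_mem_comps hw⟩
        · intro heq
          exact h1.2 (by rw [← heq]; exact self_mem_comp w)
        · intro heq
          exact h1.1 (by rw [← heq]; exact self_mem_comp w)
    · rintro (rfl | ⟨h1, h2, h3⟩)
      · rw [← hbig u (mem_union_left _ (self_mem_comp u))]
        exact comp_mem_comps hu
      · obtain ⟨w, hw, rfl⟩ := mem_comps.1 h3
        have h4 : w ∉ comp H S u := fun h => h2 (comp_eq_of_mem h)
        have h5 : w ∉ comp H S v := fun h => h1 (comp_eq_of_mem h)
        rw [← hsmall w h4 h5]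
        exact comp_mem_comps hw
  have hnot : comp H S u ∪ comp H S v ∉
      ((comps H S).erase (comp H S u)).erase (comp H S v) := by
    intro hmem
    rw [mem_erase, mem_erase] at hmem
    obtain ⟨h1, h2, h3⟩ := hmem
    apply h2
    exact comps_eq_of_mem h3 (comp_mem_comps hu) (mem_union_left _ (self_mem_comp u))
      (self_mem_comp u)
  have hcu : comp H S u ∈ comps H S := comp_mem_comps hu
  have hcv : comp H S v ∈ (comps H S).erase (comp H S u) :=
    mem_erase.2 ⟨hne.symm, comp_mem_comps hv⟩
  unfold kk
  rw [hset, card_insert_of_notMem hnot, card_erase_of_mem hcv, card_erase_of_mem hcu]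
  have h1 : 0 < ((comps H S).erase (comp H S u)).card := card_pos.2 ⟨_, hcv⟩
  rw [card_erase_of_mem hcu] at h1
  omega

lemma kk_delE_le (huv : G.Adj u v) (S : Finset V) : kk (delE G u v) S ≤ kk G S + 1 := by
  by_cases h : u ∈ S ∨ v ∈ S
  · rw [kk_delE h]; omega
  · push Not at h
    by_cases hr : (del (delE G u v) S).Reachable u v
    · rw [kk_delE_of_reachable hr]; omega
    · rw [kk_delE_of_not_reachable huv h.1 h.2 hr]

lemma cc_delE_le (huv : G.Adj u v) (S : Finset V) : cc (delE G u v) S ≤ cc G S + 1 := by
  have h := kk_delE_le huv S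
  unfold cc
  have : (kk (delE G u v) S : ℤ) ≤ kk G S + 1 := by exact_mod_cast h
  linarith

lemma le_cc_delE (S : Finset V) : cc G S ≤ cc (delE G u v) S := cc_anti_graph delE_le S

/-- equal defects: same components -/
lemma comps_delE_of_cc_eq (huv : G.Adj u v) (h : cc (delE G u v) S = cc G S) :
    comps (delE G u v) S = comps G S := by
  by_cases hS : u ∈ S ∨ v ∈ S
  · exact comps_delE hS
  · push Not at hS
    by_cases hr : (del (delE G u v) S).Reachable u v
    · exact comps_delE_of_reachable hr
    · exfalso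
      have := kk_delE_of_not_reachable huv hS.1 hS.2 hr
      unfold cc at h
      rw [this] at h
      push_cast at h
      linarith

/-- equal defects and both ends present: the ends are connected -/
lemma reachable_of_cc_delE_eq (huv : G.Adj u v) (hu : u ∉ S) (hv : v ∉ S)
    (h : cc (delE G u v) S = cc G S) : (del (delE G u v) S).Reachable u v := by
  by_contra hr
  have := kk_delE_of_not_reachable huv hu hv hr
  unfold cc at h
  rw [this] at h
  push_cast at h
  linarith

/-- `k(G - S) = 1`: all points outside `S` are connected -/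
lemma reachable_of_kk_eq_one (h : kk G S = 1) (hx : x ∉ S) (hy : y ∉ S) :
    (del G S).Reachable x y := by
  unfold kk at h
  have h1 := card_le_one.1 h.le _ (comp_mem_comps hx) _ (comp_mem_comps hy)
  rw [← mem_comp, h1]
  exact self_mem_comp y

lemma exists_notMem_of_card_lt (h : S.card < Fintype.card V) : ∃ w, w ∉ S := by
  by_contra hno
  push Not at hno
  have : S = univ := by
    ext w
    simp [hno w]
  rw [this, card_univ] at h
  omega

/-- with at most one vertex deleted, `G - uv` stays connected -/
lemma reachable_delE_of_threeConn (h3 : ThreeConn G) (h4 : 4 ≤ Fintype.card V) (huv : G.Adj u v)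
    (hS : S.card ≤ 1) (hx : x ∉ S) (hy : y ∉ S) : (del (delE G u v) S).Reachable x y := by
  by_cases hS' : u ∈ S ∨ v ∈ S
  · rw [del_delE hS']
    exact reachable_of_kk_eq_one (h3 S (by omega)) hx hy
  · push Not at hS'
    -- a third point
    have hcard : (insert u (insert v S)).card < Fintype.card V := by
      have h1 := card_insert_le u (insert v S)
      have h2 := card_insert_le v S
      omega
    obtain ⟨w, hw⟩ := exists_notMem_of_card_lt hcard
    simp only [mem_insert, not_or] at hw
    obtain ⟨hwu, hwv, hwS⟩ := hw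
    have hcu : (insert u S).card ≤ 2 := (card_insert_le u S).trans (by omega)
    have hcv : (insert v S).card ≤ 2 := (card_insert_le v S).trans (by omega)
    have key : ∀ z, z ∉ S → (del (delE G u v) S).Reachable z w := by
      intro z hz
      by_cases hzu : z = u
      · -- avoid `v`
        have hzv : z ≠ v := by rw [hzu]; exact huv.ne
        have h1 : (del G (insert v S)).Reachable z w :=
          reachable_of_kk_eq_one (h3 _ hcv) (by simp [hzv, hz]) (by simp [hwv, hwS])
        rw [← del_delE (u := u) (v := v) (Or.inr (mem_insert_self v S))] at h1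
        exact h1.mono (del_mono (subset_insert v S))
      · have h1 : (del G (insert u S)).Reachable z w :=
          reachable_of_kk_eq_one (h3 _ hcu) (by simp [hzu, hz]) (by simp [hwu, hwS])
        rw [← del_delE (u := u) (v := v) (Or.inl (mem_insert_self u S))] at h1
        exact h1.mono (del_mono (subset_insert u S))
    exact (key x hx).trans (key y hy).symm

lemma kk_delE_le_one (h3 : ThreeConn G) (h4 : 4 ≤ Fintype.card V) (huv : G.Adj u v)
    (hS : S.card ≤ 1) : kk (delE G u v) S ≤ 1 := by
  unfold kk
  rw [card_le_one]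
  intro C hC D hD
  obtain ⟨x, hx, rfl⟩ := mem_comps.1 hC
  obtain ⟨y, hy, rfl⟩ := mem_comps.1 hD
  refine (comp_eq_of_mem ?_).symm
  rw [mem_comp]
  exact reachable_delE_of_threeConn h3 h4 huv hS hx hy

lemma delE_preconnected (h3 : ThreeConn G) (h4 : 4 ≤ Fintype.card V) (huv : G.Adj u v) :
    (delE G u v).Preconnected := by
  intro x y
  have h := reachable_delE_of_threeConn h3 h4 huv (S := ∅) (by simp) (notMem_empty x)
    (notMem_empty y)
  refine h.mono ?_
  intro a b hab
  exact hab.1

end graph

section family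

variable {A : Finset V → Prop} {S f g X : Finset V} {u v w x y : V}

lemma ext_of_face (h : A S) : ext A u v S := Or.inl h

/-- a set which does not contain both `u` and `v` is in the family iff it is a face -/
lemma ext_iff_of_not (h : ¬ (u ∈ S ∧ v ∈ S)) : ext A u v S ↔ A S := by
  constructor
  · rintro (h1 | ⟨hu, hv, -⟩)
    · exact h1
    · exact absurd ⟨hu, hv⟩ h
  · exact Or.inl

/-- faces do not contain both ends of an edge -/
lemma NC.not_both (h : NC A) (huv : (gr A).Adj u v) (hS : A S) : ¬ (u ∈ S ∧ v ∈ S) :=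
  fun hh => h.not_adj hS hh.1 hh.2 huv

lemma ext_of_both (h : NC A) (huv : (gr A).Adj u v) (hu : u ∈ S) (hv : v ∈ S) :
    ext A u v S ↔ A (S.erase u) ∧ A (S.erase v) ∧
      ∀ S' ⊆ S, u ∈ S' → v ∈ S' → cc (delE (gr A) u v) S' ≤ -1 := by
  constructor
  · rintro (h1 | ⟨-, -, h1⟩)
    · exact absurd ⟨hu, hv⟩ (h.not_both huv h1)
    · exact h1
  · intro h1
    exact Or.inr ⟨hu, hv, h1⟩

/-- the family is closed under subsets -/
lemma ext_down (h : NC A) {T : Finset V} (hST : S ⊆ T) (hT : ext A u v T) : ext A u v S := by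
  rcases hT with hT | ⟨hu, hv, h1, h2, h3⟩
  · exact Or.inl (h.down _ _ hST hT)
  · by_cases hS : u ∈ S
    · by_cases hS' : v ∈ S
      · refine Or.inr ⟨hS, hS', h.down _ _ (erase_subset_erase _ hST) h1,
          h.down _ _ (erase_subset_erase _ hST) h2, fun S' hS'' => h3 S' (hS''.trans hST)⟩
      · exact Or.inl (h.down _ _ (subset_erase.2 ⟨hST, hS'⟩) h2)
    · exact Or.inl (h.down _ _ (subset_erase.2 ⟨hST, hS⟩) h1)

/-- the graph of `ext A u v` is `G - uv` -/
lemma gr_ext (h : NC A) (huv : (gr A).Adj u v) (h2 : kk (gr A) {u, v} ≤ 1) :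
    gr (ext A u v) = delE (gr A) u v := by
  ext x y
  rw [gr_adj, delE_adj, gr_adj]
  by_cases hxy : (x = u ∧ y = v) ∨ (x = v ∧ y = u)
  · -- the pair `uv`
    have hpair : ({x, y} : Finset V) = {u, v} := by
      rcases hxy with ⟨rfl, rfl⟩ | ⟨rfl, rfl⟩
      · rfl
      · exact pair_comm _ _
    have hext : ext A u v {x, y} := by
      rw [hpair, ext_of_both h huv (by simp) (by simp)]
      refine ⟨?_, ?_, ?_⟩
      · refine h.down _ {v} ?_ (h.sing v)
        intro z hz
        rw [mem_erase, mem_insert, mem_singleton] at hz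
        rw [mem_singleton]
        tauto
      · refine h.down _ {u} ?_ (h.sing u)
        intro z hz
        rw [mem_erase, mem_insert, mem_singleton] at hz
        rw [mem_singleton]
        tauto
      · intro S' hS' hu hv
        have heq : S' = {u, v} := Subset.antisymm hS' (pair_subset_iff.2 ⟨hu, hv⟩)
        rw [heq, cc_delE (Or.inl (by simp))]
        unfold cc
        rw [card_pair huv.ne]
        have : (kk (gr A) {u, v} : ℤ) ≤ 1 := by exact_mod_cast h2
        push_cast
        linarith
    constructor
    · rintro ⟨-, h1⟩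
      exact absurd hext h1
    · rintro ⟨-, h1⟩
      exact absurd hxy h1
  · have hnot : x ≠ y → ¬ (u ∈ ({x, y} : Finset V) ∧ v ∈ ({x, y} : Finset V)) := by
      rintro hne ⟨h1, h2⟩
      rw [mem_insert, mem_singleton] at h1 h2
      have hne' := huv.ne
      rcases h1 with rfl | rfl <;> rcases h2 with rfl | rfl
      · exact hne' rfl
      · exact hxy (Or.inl ⟨rfl, rfl⟩)
      · exact hxy (Or.inr ⟨rfl, rfl⟩)
      · exact hne' rfl
    constructor
    · rintro ⟨hne, h1⟩
      exact ⟨⟨hne, fun h2 => h1 (Or.inl h2)⟩, hxy⟩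
    · rintro ⟨⟨hne, h1⟩, -⟩
      refine ⟨hne, fun h2 => h1 ?_⟩
      exact (ext_iff_of_not (hnot hne)).1 h2

/-- **members of `ext A u v`** with at least three elements: type (i) members of `A` (they do not
contain both `u` and `v`), type (ii): contain `u`, `v`, `c ≥ 0` -/
lemma minNF_ext_iff (h : NC A) (huv : (gr A).Adj u v) :
    MinNF (ext A u v) f ↔ (MinNF A f ∧ ¬ (u ∈ f ∧ v ∈ f)) ∨
      (u ∈ f ∧ v ∈ f ∧ A (f.erase u) ∧ A (f.erase v) ∧ 0 ≤ cc (delE (gr A) u v) f ∧
        ∀ S', S' ⊂ f → u ∈ S' → v ∈ S' → cc (delE (gr A) u v) S' ≤ -1) := by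
  by_cases hb : u ∈ f ∧ v ∈ f
  · obtain ⟨hu, hv⟩ := hb
    constructor
    · rintro ⟨h1, h2⟩
      right
      have h4 : A (f.erase u) := by
        refine (ext_iff_of_not ?_).1 (h2 _ (erase_ssubset hu))
        rintro ⟨h5, -⟩
        exact notMem_erase u f h5
      have h5 : A (f.erase v) := by
        refine (ext_iff_of_not ?_).1 (h2 _ (erase_ssubset hv))
        rintro ⟨-, h5⟩
        exact notMem_erase v f h5
      have h6 : ∀ S', S' ⊂ f → u ∈ S' → v ∈ S' → cc (delE (gr A) u v) S' ≤ -1 := by
        intro S' hS' hu' hv'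
        exact ((ext_of_both h huv hu' hv').1 (h2 S' hS')).2.2 S' (Subset.refl _) hu' hv'
      refine ⟨hu, hv, h4, h5, ?_, h6⟩
      by_contra hlt
      apply h1
      rw [ext_of_both h huv hu hv]
      refine ⟨h4, h5, fun S' hS' hu' hv' => ?_⟩
      by_cases heq : S' = f
      · rw [heq]; omega
      · exact h6 S' (Finset.ssubset_iff_subset_ne.2 ⟨hS', heq⟩) hu' hv'
    · rintro (⟨-, h1⟩ | ⟨-, -, h4, h5, h0, h6⟩)
      · exact absurd ⟨hu, hv⟩ h1
      · refine ⟨fun hext => ?_, fun X hX => ?_⟩
        · have := ((ext_of_both h huv hu hv).1 hext).2.2 f (Subset.refl _) hu hv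
          omega
        · by_cases hX' : u ∈ X ∧ v ∈ X
          · rw [ext_of_both h huv hX'.1 hX'.2]
            refine ⟨h.down _ _ (erase_subset_erase _ hX.subset) h4,
              h.down _ _ (erase_subset_erase _ hX.subset) h5, fun S' hS' hu' hv' => ?_⟩
            exact h6 S' (lt_of_le_of_lt hS' hX) hu' hv'
          · rw [ext_iff_of_not hX']
            rw [not_and_or] at hX'
            rcases hX' with hX' | hX'
            · exact h.down _ _ (subset_erase.2 ⟨hX.subset, hX'⟩) h4
            · exact h.down _ _ (subset_erase.2 ⟨hX.subset, hX'⟩) h5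
  · constructor
    · rintro ⟨h1, h2⟩
      left
      refine ⟨⟨fun h4 => h1 (Or.inl h4), fun X hX => ?_⟩, hb⟩
      refine (ext_iff_of_not ?_).1 (h2 X hX)
      rintro ⟨h4, h5⟩
      exact hb ⟨hX.subset h4, hX.subset h5⟩
    · rintro (⟨⟨h1, h2⟩, -⟩ | ⟨hu, hv, -⟩)
      · exact ⟨fun h4 => h1 ((ext_iff_of_not hb).1 h4), fun X hX => Or.inl (h2 X hX)⟩
      · exact absurd ⟨hu, hv⟩ hb

/-- a member of `A` does not contain both ends of an edge -/
lemma MinNF.not_both (huv : (gr A).Adj u v) (hf : MinNF A f) (h3 : 3 ≤ f.card) :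
    ¬ (u ∈ f ∧ v ∈ f) := by
  rintro ⟨hu, hv⟩
  have hss : ({u, v} : Finset V) ⊂ f := by
    rw [Finset.ssubset_iff_subset_ne]
    refine ⟨pair_subset_iff.2 ⟨hu, hv⟩, fun heq => ?_⟩
    have := card_le_two (a := u) (b := v)
    rw [heq] at this
    omega
  exact huv.2 (hf.2 _ hss)

/-- members of `A` are members of `ext A u v` -/
lemma minNF_ext_of_minNF (h : NC A) (huv : (gr A).Adj u v) (hf : MinNF A f) (h3 : 3 ≤ f.card) :
    MinNF (ext A u v) f :=
  (minNF_ext_iff h huv).2 (Or.inl ⟨hf, MinNF.not_both huv hf h3⟩)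

end family

end Pool.Agent.Chrom
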