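import Pool.Agent.Lib_helper79.Chrom.Ext0

/-!
# The family `ext A u v` (2.3 of note 1214): class NC, root condition, measure
-/

open Finset

namespace Pool.Agent.Chrom

set_option linter.unusedSectionVars false

variable {V : Type} [Fintype V] [DecidableEq V]

variable {A : Finset V → Prop} {S T f g X C : Finset V} {u v w x y : V}

/-- faces of `A` have `c ≤ 0` in `G - uv` -/
lemma face_delE (h : NC A) (h4 : 4 ≤ Fintype.card V) (h3 : ThreeConn (gr A))
    (huv : (gr A).Adj u v) (ht : ∀ T, Tight A T → u ∈ T ∨ v ∈ T) (hS : A S) (hne : S.Nonempty) :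
    cc (delE (gr A) u v) S ≤ 0 := by
  by_cases hm : u ∈ S ∨ v ∈ S
  · rw [cc_delE hm]
    exact h.face S hS hne
  · by_cases h2 : 2 ≤ S.card
    · have h5 : cc (gr A) S ≠ 0 := fun h0 => hm (ht S ⟨hS, h2, h0⟩)
      have h6 := h.face S hS hne
      have h7 := cc_delE_le huv S
      omega
    · have h5 : 0 < S.card := hne.card_pos
      have h6 := kk_delE_le_one h3 h4 huv (S := S) (by omega)
      unfold cc
      omega

lemma face_ext (h : NC A) (h4 : 4 ≤ Fintype.card V) (h3 : ThreeConn (gr A))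
    (huv : (gr A).Adj u v) (ht : ∀ T, Tight A T → u ∈ T ∨ v ∈ T) (hS : ext A u v S)
    (hne : S.Nonempty) : cc (delE (gr A) u v) S ≤ 0 := by
  by_cases hb : u ∈ S ∧ v ∈ S
  · have := ((ext_of_both h huv hb.1 hb.2).1 hS).2.2 S (Subset.refl _) hb.1 hb.2
    omega
  · exact face_delE h h4 h3 huv ht ((ext_iff_of_not hb).1 hS) hne

lemma nonface_ext (h : NC A) (huv : (gr A).Adj u v) (hf : MinNF (ext A u v) f)
    (h3 : 3 ≤ f.card) : 0 ≤ cc (delE (gr A) u v) f := by
  rcases (minNF_ext_iff h huv).1 hf with ⟨h1, -⟩ | ⟨-, -, -, -, h1, -⟩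
  · exact (h.nonface f h1 h3).trans (le_cc_delE f)
  · exact h1

/-- a member of type (i) does not cross a member -/
lemma nocross_ext (h : NC A) (h4 : 4 ≤ Fintype.card V) (h3 : ThreeConn (gr A))
    (huv : (gr A).Adj u v) (ht : ∀ T, Tight A T → u ∈ T ∨ v ∈ T)
    (hf : MinNF A f) (hf' : ¬ (u ∈ f ∧ v ∈ f)) (hg : MinNF (ext A u v) g)
    (hf3 : 3 ≤ f.card) (hg3 : 3 ≤ g.card) (hd : Disjoint f g) :
    (meetComps (delE (gr A) u v) f g).card ≤ 1 := by
  by_contra hlt
  have hfe : MinNF (ext A u v) f := (minNF_ext_iff h huv).2 (Or.inl ⟨hf, hf'⟩)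
  have hle : ∀ f, MinNF (ext A u v) f → ∀ X, X ⊂ f → X.Nonempty →
      cc (delE (gr A) u v) X ≤ 0 := fun f hf X hX hne =>
    face_ext h h4 h3 huv ht (hf.2 X hX) hne
  obtain ⟨-, h1, -, h2, -⟩ := cross_lemma (delE_preconnected h3 h4 huv) hd
    (nonface_ext h huv hfe hf3) (nonface_ext h huv hg hg3) (hle f hfe) (hle g hg)
    (by omega) (card_pos.1 (by omega))
  have h5 : cc (gr A) f = 0 := by
    have h6 := h.nonface f hf hf3
    have h7 := le_cc_delE (G := gr A) (u := u) (v := v) f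
    omega
  have heq : cc (delE (gr A) u v) f = cc (gr A) f := by rw [h1, h5]
  rcases (minNF_ext_iff h huv).1 hg with ⟨hg1, -⟩ | ⟨hug, hvg, -, -, -, hg1⟩
  · rw [meetComps_congr (comps_delE_of_cc_eq huv heq)] at hlt
    exact hlt (h.nocross f g hf hg1 hf3 hg3 hd)
  · have hu : u ∉ f := fun hh => Finset.disjoint_left.1 hd hh hug
    have hv : v ∉ f := fun hh => Finset.disjoint_left.1 hd hh hvg
    have hr := reachable_of_cc_delE_eq huv hu hv heq
    set C := comp (delE (gr A) u v) f u with hC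
    have huC : u ∈ C := self_mem_comp u
    have hvC : v ∈ C := mem_comp.2 hr
    have hCm : C ∈ meetComps (delE (gr A) u v) f g := by
      refine mem_meetComps.2 ⟨comp_mem_comps hu, ?_⟩
      rw [Finset.not_disjoint_iff]
      exact ⟨u, huC, hug⟩
    have h6 := (h2 C hCm).1
    have h7 := (part_ssubset (by omega) hCm).1
    have h8 := hg1 _ h7 (mem_inter.2 ⟨hug, huC⟩) (mem_inter.2 ⟨hvg, hvC⟩)
    omega

theorem nc_ext (h : NC A) (h4 : 4 ≤ Fintype.card V) (h3 : ThreeConn (gr A))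
    (huv : (gr A).Adj u v) (ht : ∀ T, Tight A T → u ∈ T ∨ v ∈ T) : NC (ext A u v) where
  down := fun S T hST hT => ext_down h hST hT
  sing := fun v => Or.inl (h.sing v)
  two := h.two
  conn := by
    rw [gr_ext h huv (h3 _ card_le_two).le]
    exact delE_preconnected h3 h4 huv
  face := by
    rw [gr_ext h huv (h3 _ card_le_two).le]
    exact fun S hS hne => face_ext h h4 h3 huv ht hS hne
  nonface := by
    rw [gr_ext h huv (h3 _ card_le_two).le]
    exact fun f hf hf3 => nonface_ext h huv hf hf3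
  nocross := by
    rw [gr_ext h huv (h3 _ card_le_two).le]
    intro f g hf hg hf3 hg3 hd
    rcases (minNF_ext_iff h huv).1 hf with ⟨hf1, hf2⟩ | ⟨huf, hvf, -⟩
    · exact nocross_ext h h4 h3 huv ht hf1 hf2 hg hf3 hg3 hd
    · rcases (minNF_ext_iff h huv).1 hg with ⟨hg1, hg2⟩ | ⟨hug, -⟩
      · have h1 := nocross_ext h h4 h3 huv ht hg1 hg2 hf hg3 hf3 hd.symm
        by_contra hlt
        have h2 := cross_mutual (delE_preconnected h3 h4 huv) hd (card_pos.1 (by omega))
          (nonface_ext h huv hg hg3)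
          (fun X hX hne => face_ext h h4 h3 huv ht (hg.2 X hX) hne) (by omega)
        omega
      · exact absurd hug (Finset.disjoint_left.1 hd huf)

theorem root_ext (h : NC A) (h3 : ThreeConn (gr A))
    (huv : (gr A).Adj u v) (ht : ∀ T, Tight A T → u ∈ T ∨ v ∈ T) :
    Root (ext A u v) u v := by
  intro T hT
  by_contra hno
  push Not at hno
  obtain ⟨hu, hv, hr⟩ := hno
  have hgr := gr_ext h huv (h3 _ card_le_two).le
  have hz := hT.zero
  rw [hgr] at hr hz
  rw [cc_delE_of_reachable hr] at hz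
  have hA : A T := (ext_iff_of_not (fun hh => hu hh.1)).1 hT.face
  rcases ht T ⟨hA, hT.two, hz⟩ with h1 | h1
  · exact hu h1
  · exact hv h1

theorem mu_ext (h : NC A) (h3 : ThreeConn (gr A)) (huv : (gr A).Adj u v) :
    mu (ext A u v) < mu A := by
  classical
  have hgr := gr_ext h huv (h3 _ card_le_two).le
  unfold mu
  rw [hgr]
  have key : ∀ p : V × V, (delE (gr A) u v).Adj p.1 p.2 ∧ kk (delE (gr A) u v) {p.1, p.2} = 1 →
      (gr A).Adj p.1 p.2 ∧ kk (gr A) {p.1, p.2} = 1 :=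
    fun p hp => ⟨hp.1.1, h3 _ card_le_two⟩
  rw [Nat.card_eq_fintype_card, Nat.card_eq_fintype_card, Fintype.card_subtype,
    Fintype.card_subtype]
  refine card_lt_card ?_
  rw [Finset.ssubset_iff_of_subset]
  · refine ⟨(u, v), ?_, ?_⟩
    · rw [mem_filter]
      exact ⟨mem_univ _, huv, h3 _ card_le_two⟩
    · rw [mem_filter]
      rintro ⟨-, h1, -⟩
      exact h1.2 (Or.inl ⟨rfl, rfl⟩)
  · intro p hp
    rw [mem_filter] at hp ⊢
    exact ⟨mem_univ _, key p hp.2⟩

/-- EXTMOVE -/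
theorem stmtExt : StmtExt := fun _ _ _ _ _ _ h h4 h3 huv ht =>
  ⟨nc_ext h h4 h3 huv ht, root_ext h h3 huv ht, mu_ext h h3 huv⟩

end Pool.Agent.Chrom
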